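import Pool.Agent.Helper44.KS.GoalsC

/-!
Packet 8935 (KS-ATT) of MP_480c30_co: `S_ATT` of Helper44/KS/GoalsC.lean.
-/

namespace Pool.Agent.Helper81.KS

open MeasureTheory Filter Topology Set Pool.Agent.Helper44.KS
open scoped ENNReal ContDiff

noncomputable section

/-- Cauchy-Schwarz for a finite measure. -/
theorem sq_integral_le {X : Type*} [MeasurableSpace X] (ν : Measure X) [IsFiniteMeasure ν]
    (u : X → ℝ) (h1 : Integrable u ν) (h2 : Integrable (fun x => u x ^ 2) ν) :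
    (∫ x, u x ∂ν) ^ 2 ≤ ν.real univ * ∫ x, u x ^ 2 ∂ν := by
  have key : ∀ t : ℝ, 0 ≤ (∫ x, u x ^ 2 ∂ν) - 2 * t * (∫ x, u x ∂ν) + t ^ 2 * ν.real univ := by
    intro t
    have h0 : 0 ≤ ∫ x, (u x - t) ^ 2 ∂ν := integral_nonneg fun x => sq_nonneg _
    have h3 : ∫ x, (u x - t) ^ 2 ∂ν =
        (∫ x, u x ^ 2 ∂ν) - 2 * t * (∫ x, u x ∂ν) + t ^ 2 * ν.real univ := by
      have e : (fun x => (u x - t) ^ 2) = fun x => (u x ^ 2 - 2 * t * u x) + t ^ 2 := by
        funext x; ring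
      have i1 : Integrable (fun x => 2 * t * u x) ν := h1.const_mul _
      have i2 : Integrable (fun x => u x ^ 2 - 2 * t * u x) ν := h2.sub i1
      rw [e, integral_add i2 (integrable_const _),
        integral_sub h2 i1, integral_const_mul, integral_const, smul_eq_mul]
      ring
    rwa [h3] at h0
  have hm : 0 ≤ ν.real univ := measureReal_nonneg
  rcases hm.eq_or_lt with h | h
  · -- the measure is zero
    have hz : ν = 0 := by
      rw [← Measure.measure_univ_eq_zero]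
      have := h.symm
      rw [Measure.real, ENNReal.toReal_eq_zero_iff] at this
      exact this.resolve_right (measure_ne_top _ _)
    subst hz
    simp
  · have h4 := key ((∫ x, u x ∂ν) / ν.real univ)
    have h5 : (∫ x, u x ^ 2 ∂ν) - 2 * ((∫ x, u x ∂ν) / ν.real univ) * (∫ x, u x ∂ν) +
        ((∫ x, u x ∂ν) / ν.real univ) ^ 2 * ν.real univ =
        (∫ x, u x ^ 2 ∂ν) - (∫ x, u x ∂ν) ^ 2 / ν.real univ := by
      field_simp
      ring
    rw [h5] at h4
    have h6 : (∫ x, u x ∂ν) ^ 2 / ν.real univ ≤ ∫ x, u x ^ 2 ∂ν := by linarith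
    rw [div_le_iff₀ h] at h6
    linarith

section psi

variable {X : Type*} [MeasurableSpace X] {μ : Measure X} [IsProbabilityMeasure μ] {ψ : X → ℝ}

omit [IsProbabilityMeasure μ] in
theorem int_psi (hm : Measurable ψ) (hψ : ∀ d, 0 ≤ ψ d ∧ ψ d ≤ 2) {h : X → ℝ}
    (hh : Integrable h μ) : Integrable (fun e => ψ e * h e) μ := by
  refine Integrable.mono' (hh.norm.const_mul 2) (hm.aestronglyMeasurable.mul
    hh.aestronglyMeasurable) (ae_of_all _ fun e => ?_)
  rw [norm_mul, Real.norm_of_nonneg (hψ e).1]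
  exact mul_le_mul_of_nonneg_right (hψ e).2 (norm_nonneg _)

/-- The estimate for one coordinate. -/
theorem coord (hm : Measurable ψ) (hψ : ∀ d, 0 ≤ ψ d ∧ ψ d ≤ 2) (h1 : ∫ d, ψ d ∂μ = 1)
    {g : X → ℝ} (hg : Integrable g μ) (a : ℝ) (hg2 : Integrable (fun x => (g x - a) ^ 2) μ)
    {A : Set X} (hA : MeasurableSet A) (hβ : 1 / 2 ≤ ∫ d in A, ψ d ∂μ) :
    ((∫ d in A, ψ d ∂μ)⁻¹ * (∫ d in A, ψ d * g d ∂μ) - ∫ d, ψ d * g d ∂μ) ^ 2 ≤
      16 * μ.real Aᶜ * ∫ x, (g x - a) ^ 2 ∂μ := by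
  set m : ℝ := ∫ d, ψ d * g d ∂μ with hmdef
  set β : ℝ := ∫ d in A, ψ d ∂μ with hβdef
  have hψi : Integrable ψ μ := by
    have := int_psi hm hψ (μ := μ) (h := fun _ => (1 : ℝ)) (integrable_const _)
    simpa using this
  have hψg : Integrable (fun e => ψ e * g e) μ := int_psi hm hψ hg
  -- the square of g - m
  have hgm2 : Integrable (fun x => (g x - m) ^ 2) μ := by
    have e : (fun x => (g x - m) ^ 2) =
        fun x => ((g x - a) ^ 2 + 2 * (a - m) * g x) + (m ^ 2 - a ^ 2) := by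
      funext x; ring
    rw [e]
    exact (hg2.add (hg.const_mul _)).add (integrable_const _)
  have hgm : Integrable (fun x => g x - m) μ := hg.sub (integrable_const _)
  have hu : Integrable (fun x => ψ x * (g x - m)) μ := int_psi hm hψ hgm
  have hu2 : Integrable (fun x => (ψ x * (g x - m)) ^ 2) μ := by
    have e : (fun x => (ψ x * (g x - m)) ^ 2) = fun x => ψ x * (ψ x * (g x - m) ^ 2) := by
      funext x; ring
    rw [e]
    exact int_psi hm hψ (int_psi hm hψ hgm2)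
  have htot : ∫ x, ψ x * (g x - m) ∂μ = 0 := by
    have e : (fun x => ψ x * (g x - m)) = fun x => ψ x * g x - m * ψ x := by
      funext x; ring
    rw [e, integral_sub hψg (hψi.const_mul _), integral_const_mul, h1, ← hmdef]
    ring
  have hsplit : (∫ x in A, ψ x * (g x - m) ∂μ) + ∫ x in Aᶜ, ψ x * (g x - m) ∂μ = 0 := by
    rw [integral_add_compl hA hu, htot]
  have hA1 : ∫ x in A, ψ x * (g x - m) ∂μ = (∫ x in A, ψ x * g x ∂μ) - m * β := by
    have e : (fun x => ψ x * (g x - m)) = fun x => ψ x * g x - m * ψ x := by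
      funext x; ring
    rw [e, integral_sub hψg.integrableOn (hψi.const_mul _).integrableOn, integral_const_mul]
  have hβ0 : 0 < β := by linarith
  have e1 : β⁻¹ * (∫ d in A, ψ d * g d ∂μ) - m = - (β⁻¹ * ∫ x in Aᶜ, ψ x * (g x - m) ∂μ) := by
    have h2 : ∫ x in Aᶜ, ψ x * (g x - m) ∂μ = - ((∫ x in A, ψ x * g x ∂μ) - m * β) := by
      rw [← hA1]; linarith
    rw [h2]
    field_simp
  have hcs := sq_integral_le (μ.restrict Aᶜ) (fun x => ψ x * (g x - m)) hu.integrableOn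
    hu2.integrableOn
  have hreal : (μ.restrict Aᶜ).real univ = μ.real Aᶜ := by
    rw [measureReal_restrict_apply MeasurableSet.univ, univ_inter]
  rw [hreal] at hcs
  have h5 : ∫ x in Aᶜ, (ψ x * (g x - m)) ^ 2 ∂μ ≤ ∫ x, (ψ x * (g x - m)) ^ 2 ∂μ :=
    setIntegral_le_integral hu2 (ae_of_all _ fun x => sq_nonneg _)
  have hi1 : Integrable (fun x => ψ x * (g x - m) ^ 2) μ := int_psi hm hψ hgm2
  have hi2 : Integrable (fun x => ψ x * (g x - a) ^ 2) μ := int_psi hm hψ hg2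
  have h6 : ∫ x, (ψ x * (g x - m)) ^ 2 ∂μ ≤ 2 * ∫ x, ψ x * (g x - m) ^ 2 ∂μ := by
    rw [← integral_const_mul]
    refine integral_mono hu2 (hi1.const_mul _) fun x => ?_
    show (ψ x * (g x - m)) ^ 2 ≤ 2 * (ψ x * (g x - m) ^ 2)
    have h7 := hψ x
    have h8 : 0 ≤ ψ x * (g x - m) ^ 2 := mul_nonneg h7.1 (sq_nonneg _)
    nlinarith [mul_le_mul_of_nonneg_right h7.2 h8]
  have h7 : ∫ x, ψ x * (g x - m) ^ 2 ∂μ ≤ ∫ x, ψ x * (g x - a) ^ 2 ∂μ := by
    have e : ∫ x, ψ x * (g x - a) ^ 2 ∂μ = (∫ x, ψ x * (g x - m) ^ 2 ∂μ) + (m - a) ^ 2 := by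
      have e2 : (fun x => ψ x * (g x - a) ^ 2) = fun x => ψ x * (g x - m) ^ 2 +
          (2 * (m - a) * (ψ x * (g x - m)) + (m - a) ^ 2 * ψ x) := by
        funext x; ring
      have i1 : Integrable (fun x => 2 * (m - a) * (ψ x * (g x - m))) μ := hu.const_mul _
      have i2 : Integrable (fun x => (m - a) ^ 2 * ψ x) μ := hψi.const_mul _
      have i3 : Integrable (fun x => 2 * (m - a) * (ψ x * (g x - m)) + (m - a) ^ 2 * ψ x) μ :=
        i1.add i2
      rw [e2, integral_add hi1 i3, integral_add i1 i2, integral_const_mul, integral_const_mul,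
        htot, h1]
      ring
    rw [e]
    nlinarith [sq_nonneg (m - a)]
  have h8 : ∫ x, ψ x * (g x - a) ^ 2 ∂μ ≤ 2 * ∫ x, (g x - a) ^ 2 ∂μ := by
    rw [← integral_const_mul]
    refine integral_mono hi2 (hg2.const_mul _) fun x => ?_
    exact mul_le_mul_of_nonneg_right (hψ x).2 (sq_nonneg _)
  have hμ : 0 ≤ μ.real Aᶜ := measureReal_nonneg
  have h9 : (∫ x in Aᶜ, ψ x * (g x - m) ∂μ) ^ 2 ≤ 4 * μ.real Aᶜ * ∫ x, (g x - a) ^ 2 ∂μ := by
    refine hcs.trans ?_
    calc μ.real Aᶜ * ∫ x in Aᶜ, (ψ x * (g x - m)) ^ 2 ∂μ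
        ≤ μ.real Aᶜ * (4 * ∫ x, (g x - a) ^ 2 ∂μ) :=
          mul_le_mul_of_nonneg_left (by linarith) hμ
      _ = 4 * μ.real Aᶜ * ∫ x, (g x - a) ^ 2 ∂μ := by ring
  rw [e1, neg_sq, mul_pow]
  have h10 : (β⁻¹) ^ 2 ≤ 4 := by
    have : β⁻¹ ≤ 2 := by
      rw [inv_le_comm₀ hβ0 (by norm_num)]
      linarith
    have h0 : 0 ≤ β⁻¹ := inv_nonneg.2 hβ0.le
    nlinarith
  have h11 : 0 ≤ (∫ x in Aᶜ, ψ x * (g x - m) ∂μ) ^ 2 := sq_nonneg _
  calc (β⁻¹) ^ 2 * (∫ x in Aᶜ, ψ x * (g x - m) ∂μ) ^ 2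
      ≤ 4 * (4 * μ.real Aᶜ * ∫ x, (g x - a) ^ 2 ∂μ) :=
        mul_le_mul h10 h9 h11 (by norm_num)
    _ = 16 * μ.real Aᶜ * ∫ x, (g x - a) ^ 2 ∂μ := by ring

end psi

/-- A centre of mass of a set with a bounded density is in the closed convex hull. -/
theorem mem_closure_of_density {n : ℕ} {μ : Measure (Fin n → ℝ)} [IsProbabilityMeasure μ]
    {ψ : (Fin n → ℝ) → ℝ} (hm : Measurable ψ) (hψ : ∀ d, 0 ≤ ψ d ∧ ψ d ≤ 2)
    (hint : ∀ p, Integrable (fun d : Fin n → ℝ => d p) μ) {A G : Set (Fin n → ℝ)}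
    (hA : MeasurableSet A) (hG : Convex ℝ G) (hAG : A ⊆ G) (hβ : 0 < ∫ d in A, ψ d ∂μ) :
    (fun p => (∫ d in A, ψ d ∂μ)⁻¹ * ∫ d in A, ψ d * d p ∂μ) ∈ closure G := by
  by_contra hcon
  obtain ⟨l, u, h1, h2⟩ := geometric_hahn_banach_point_closed hG.closure isClosed_closure hcon
  set β : ℝ := ∫ d in A, ψ d ∂μ with hβdef
  set L : Fin n → ℝ := fun p => l (fun j => if p = j then 1 else 0) with hL
  have hl : ∀ d : Fin n → ℝ, l d = ∑ p, d p * L p := by
    intro d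
    have := LinearMap.pi_apply_eq_sum_univ (l : (Fin n → ℝ) →ₗ[ℝ] ℝ) d
    simpa [hL, smul_eq_mul] using this
  have hψi : Integrable ψ μ := by
    have := int_psi hm hψ (μ := μ) (h := fun _ => (1 : ℝ)) (integrable_const _)
    simpa using this
  have hli : Integrable (fun d : Fin n → ℝ => ∑ p, d p * L p) μ :=
    integrable_finsetSum _ fun p _ => (hint p).mul_const _
  have hi1 : ∀ p, Integrable (fun d : Fin n → ℝ => ψ d * d p) μ := fun p => int_psi hm hψ (hint p)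
  have hpos : 0 ≤ ∫ d in A, ψ d * (l d - u) ∂μ := by
    refine setIntegral_nonneg hA fun d hd => ?_
    exact mul_nonneg (hψ d).1 (sub_nonneg.2 (h2 d (subset_closure (hAG hd))).le)
  have e1 : ∫ d in A, ψ d * (l d - u) ∂μ = β * (l (fun p => β⁻¹ * ∫ d in A, ψ d * d p ∂μ) - u) := by
    have e2 : (fun d : Fin n → ℝ => ψ d * (l d - u)) =
        fun d => (∑ p, ψ d * d p * L p) - u * ψ d := by
      funext d
      rw [hl, mul_sub, Finset.mul_sum]
      congr 1
      · exact Finset.sum_congr rfl fun p _ => by ring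
      · ring
    have i1 : ∀ p, Integrable (fun d : Fin n → ℝ => ψ d * d p * L p) (μ.restrict A) :=
      fun p => ((hi1 p).mul_const _).integrableOn
    have i2 : Integrable (fun d : Fin n → ℝ => ∑ p, ψ d * d p * L p) (μ.restrict A) :=
      integrable_finsetSum _ fun p _ => i1 p
    have i3 : Integrable (fun d : Fin n → ℝ => u * ψ d) (μ.restrict A) :=
      (hψi.const_mul _).integrableOn
    rw [e2, integral_sub i2 i3, integral_finsetSum _ fun p _ => i1 p, integral_const_mul, hl,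
      mul_sub, Finset.mul_sum]
    congr 1
    · refine Finset.sum_congr rfl fun p _ => ?_
      rw [integral_mul_const]
      field_simp
    · ring
  rw [e1] at hpos
  have h3 : β * (l (fun p => β⁻¹ * ∫ d in A, ψ d * d p ∂μ) - u) < 0 :=
    mul_neg_of_pos_of_neg hβ (sub_neg.2 h1)
  linarith

theorem att (hcov : S_COV) (hcvx : S_CVX) (hsec : S_SEC) (hnqs : S_NQS) : S_ATT := by
  intro c ρ hc hρ
  obtain ⟨⟨K0, hK0, hint⟩, _⟩ := hsec
  set η : ℝ := min (1 / 16) (ρ ^ 2 / (512 * K0)) with hηdef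
  have hη : 0 < η := lt_min (by norm_num) (by positivity)
  have hη1 : η ≤ 1 / 16 := min_le_left _ _
  have hη2 : 32 * η * K0 ≤ (ρ / 4) ^ 2 := by
    have h := min_le_right (1 / 16 : ℝ) (ρ ^ 2 / (512 * K0))
    rw [← hηdef, le_div_iff₀ (by positivity)] at h
    nlinarith
  obtain ⟨M, hM⟩ := hcov c (ρ / 8) η hc (by positivity) hη
  have hκ : 0 < η / ((M : ℝ) + 1) := by positivity
  set κ : ℝ := η / ((M : ℝ) + 1) with hκdef
  refine ⟨κ, hκ, ?_⟩
  intro Z ψ hψm hψ hψ1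
  obtain ⟨E, hE1, hE2, hE3⟩ := hM Z
  obtain ⟨n1, n2, n3, n4⟩ := hnqs c Z
  obtain ⟨hq1, hq2⟩ := hint c Z
  classical
  -- the set `A`
  set A : Set (Fin Z.n → ℝ) := ⋃ i, if κ ≤ Z.μ.real (E i) then E i else ∅ with hAdef
  set B : Set (Fin Z.n → ℝ) := ⋃ i, if κ ≤ Z.μ.real (E i) then ∅ else E i with hBdef
  have hAm : MeasurableSet A := by
    refine MeasurableSet.iUnion fun i => ?_
    split_ifs
    · exact hE1 i
    · exact MeasurableSet.empty
  have hB : Z.μ.real B ≤ η := by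
    calc Z.μ.real B ≤ ∑ i, Z.μ.real (if κ ≤ Z.μ.real (E i) then ∅ else E i) :=
          measureReal_iUnion_fintype_le _
      _ ≤ ∑ _i : Fin M, κ := by
          refine Finset.sum_le_sum fun i _ => ?_
          split_ifs with h
          · rw [measureReal_empty]; exact hκ.le
          · exact (not_le.1 h).le
      _ = M * κ := by simp
      _ ≤ η := by
          rw [hκdef, mul_div_assoc', div_le_iff₀ (by positivity)]
          nlinarith
  have hA : 1 - 2 * η ≤ Z.μ.real A := by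
    have hsub : (⋃ i, E i) ⊆ A ∪ B := by
      intro d hd
      obtain ⟨i, hi⟩ := mem_iUnion.1 hd
      by_cases h : κ ≤ Z.μ.real (E i)
      · left
        exact mem_iUnion.2 ⟨i, by rw [if_pos h]; exact hi⟩
      · right
        exact mem_iUnion.2 ⟨i, by rw [if_neg h]; exact hi⟩
    have h1 : Z.μ.real (⋃ i, E i) ≤ Z.μ.real A + Z.μ.real B :=
      (measureReal_mono hsub).trans (measureReal_union_le _ _)
    linarith
  have hAc : Z.μ.real Aᶜ ≤ 2 * η := by
    rw [probReal_compl_eq_one_sub hAm]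
    linarith
  -- the convex set
  set G : Set (Fin Z.n → ℝ) :=
    {f | κ ≤ Z.μ.real {d | Z.nq (fun p => d p - f p) < (ρ / 4) ^ 2}} with hGdef
  have hG : Convex ℝ G := hcvx c Z κ (ρ / 4) (by positivity)
  have hAG : A ⊆ G := by
    intro d hd
    obtain ⟨i, hi⟩ := mem_iUnion.1 hd
    by_cases h : κ ≤ Z.μ.real (E i)
    · rw [if_pos h] at hi
      refine h.trans (measureReal_mono fun d' hd' => ?_)
      have := hE2 i d' hd' d hi
      show Z.nq (fun p => d' p - d p) < (ρ / 4) ^ 2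
      nlinarith
    · rw [if_neg h] at hi
      exact absurd hi (notMem_empty _)
  -- the weight of `A`
  have hψi : Integrable ψ Z.μ := by
    have := int_psi hψm hψ (μ := Z.μ) (h := fun _ => (1 : ℝ)) (integrable_const _)
    simpa using this
  have hβ : 1 / 2 ≤ ∫ d in A, ψ d ∂Z.μ := by
    have h1 := integral_add_compl hAm hψi
    have h2 : ∫ d in Aᶜ, ψ d ∂Z.μ ≤ 2 * Z.μ.real Aᶜ := by
      have h3 : ∫ d in Aᶜ, ψ d ∂Z.μ ≤ ∫ _d in Aᶜ, (2 : ℝ) ∂Z.μ :=
        integral_mono hψi.integrableOn (integrable_const _) fun d => (hψ d).2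
      rwa [setIntegral_const, smul_eq_mul, mul_comm] at h3
    linarith
  have hcl := mem_closure_of_density hψm hψ Z.int hAm hG hAG (by linarith)
  set fA : Fin Z.n → ℝ := fun p => (∫ d in A, ψ d ∂Z.μ)⁻¹ * ∫ d in A, ψ d * d p ∂Z.μ with hfA
  set f : Fin Z.n → ℝ := fun p => ∫ e, ψ e * e p ∂Z.μ with hf
  have hr4 : (0 : ℝ) < (ρ / 4) ^ 2 := by positivity
  obtain ⟨f', hf'1, hf'2⟩ : ∃ f' ∈ G, Z.nq (fun p => f' p - fA p) < (ρ / 4) ^ 2 := by
    have hopen : IsOpen {g : Fin Z.n → ℝ | Z.nq (fun p => g p - fA p) < (ρ / 4) ^ 2} := by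
      refine isOpen_lt ?_ continuous_const
      exact n4.comp (by fun_prop : Continuous fun g : Fin Z.n → ℝ => fun p => g p - fA p)
    have h0 : fA ∈ {g : Fin Z.n → ℝ | Z.nq (fun p => g p - fA p) < (ρ / 4) ^ 2} := by
      show Z.nq (fun p => fA p - fA p) < (ρ / 4) ^ 2
      have : Z.nq (fun p => fA p - fA p) = 0 := by
        unfold KSys.nq
        simp
      rw [this]
      exact hr4
    obtain ⟨g, hg1, hg2⟩ := mem_closure_iff.1 hcl _ hopen h0
    exact ⟨g, hg2, hg1⟩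
  -- the distance of `fA` and `f`
  have hS : 0 < Z.S := lt_of_lt_of_le one_pos Z.one_le
  have hYi : ∀ p ∈ Z.W Z.S, Integrable (fun d : Fin Z.n → ℝ => (d p - Z.a p) ^ 2) Z.μ := by
    intro p hp
    have hw : 0 < 1 + Z.a p ^ 2 := by positivity
    refine Integrable.mono' (hq1.const_mul ((1 + Z.a p ^ 2) * Z.S))
      (((measurable_pi_apply p).sub_const _).pow_const 2).aestronglyMeasurable
      (ae_of_all _ fun d => ?_)
    rw [Real.norm_of_nonneg (sq_nonneg _)]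
    have h1 : (Z.Y d p) ^ 2 / (1 + Z.a p ^ 2) ≤ ∑ q ∈ Z.W Z.S, Z.Y d q ^ 2 / (1 + Z.a q ^ 2) :=
      Finset.single_le_sum (f := fun q => Z.Y d q ^ 2 / (1 + Z.a q ^ 2))
        (fun q _ => by positivity) hp
    have h2 : ∑ q ∈ Z.W Z.S, Z.Y d q ^ 2 / (1 + Z.a q ^ 2) = Z.S * Z.nq (Z.Y d) := by
      unfold KSys.nq
      field_simp
    rw [h2, div_le_iff₀ hw] at h1
    have h3 : Z.Y d p = d p - Z.a p := rfl
    rw [h3] at h1
    calc (d p - Z.a p) ^ 2 ≤ Z.S * Z.nq (Z.Y d) * (1 + Z.a p ^ 2) := h1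
      _ = (1 + Z.a p ^ 2) * Z.S * Z.nq (Z.Y d) := by ring
  have hdist : Z.nq (fun p => fA p - f p) ≤ (ρ / 4) ^ 2 := by
    have h1 : ∀ p ∈ Z.W Z.S, (fA p - f p) ^ 2 / (1 + Z.a p ^ 2) ≤
        32 * η * ((∫ d, (d p - Z.a p) ^ 2 ∂Z.μ) / (1 + Z.a p ^ 2)) := by
      intro p hp
      have hw : 0 < 1 + Z.a p ^ 2 := by positivity
      have h2 := coord (μ := Z.μ) hψm hψ hψ1 (Z.int p) (Z.a p) (hYi p hp) hAm hβ
      have h3 : 0 ≤ ∫ d, (d p - Z.a p) ^ 2 ∂Z.μ := integral_nonneg fun d => sq_nonneg _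
      rw [← mul_div_assoc]
      refine div_le_div_of_nonneg_right ?_ hw.le
      refine h2.trans ?_
      refine mul_le_mul_of_nonneg_right ?_ h3
      linarith
    have h4 : ∫ d, Z.nq (Z.Y d) ∂Z.μ =
        (∑ p ∈ Z.W Z.S, (∫ d, (d p - Z.a p) ^ 2 ∂Z.μ) / (1 + Z.a p ^ 2)) / Z.S := by
      have e : (fun d : Fin Z.n → ℝ => Z.nq (Z.Y d)) = fun d =>
          (∑ p ∈ Z.W Z.S, (d p - Z.a p) ^ 2 / (1 + Z.a p ^ 2)) / Z.S := rfl
      rw [e, integral_div, integral_finsetSum _ fun p hp => (hYi p hp).div_const _]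
      congr 1
      exact Finset.sum_congr rfl fun p _ => integral_div _ _
    have h5 : Z.nq (fun p => fA p - f p) ≤ 32 * η * ∫ d, Z.nq (Z.Y d) ∂Z.μ := by
      rw [h4, ← mul_div_assoc, Finset.mul_sum]
      exact div_le_div_of_nonneg_right (Finset.sum_le_sum h1) hS.le
    refine h5.trans (le_trans ?_ hη2)
    exact mul_le_mul_of_nonneg_left hq2 (by positivity)
  -- the ball
  refine le_trans hf'1 (measureReal_mono fun d hd => ?_)
  show Z.nq (fun p => d p - f p) < ρ ^ 2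
  have hd' : Z.nq (fun p => d p - f' p) < (ρ / 4) ^ 2 := hd
  have hρ4 : (0 : ℝ) ≤ ρ / 4 := by positivity
  have s1 : √(Z.nq fun p => d p - f' p) ≤ ρ / 4 := by
    rw [Real.sqrt_le_left hρ4]; exact hd'.le
  have s2 : √(Z.nq fun p => f' p - fA p) ≤ ρ / 4 := by
    rw [Real.sqrt_le_left hρ4]; exact hf'2.le
  have s3 : √(Z.nq fun p => fA p - f p) ≤ ρ / 4 := by
    rw [Real.sqrt_le_left hρ4]; exact hdist
  have t1 := n1 (fun p => d p - f' p) (fun p => f' p - f p)
  have t2 := n1 (fun p => f' p - fA p) (fun p => fA p - f p)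
  have e1 : (fun p => (d p - f' p) + (f' p - f p)) = fun p => d p - f p := by
    funext p; ring
  have e2 : (fun p => (f' p - fA p) + (fA p - f p)) = fun p => f' p - f p := by
    funext p; ring
  rw [e1] at t1
  rw [e2] at t2
  have s4 : √(Z.nq fun p => d p - f p) ≤ 3 * (ρ / 4) := by linarith
  have s5 : √(Z.nq fun p => d p - f p) < ρ := by linarith
  rwa [Real.sqrt_lt' hρ] at s5

end

end Pool.Agent.Helper81.KS
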